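import Pool.Agent.Run7.h888.GK.IN1b

/-! Piece IN1 of project GK (helper400, MP_a90b0f_nt). -/

set_option autoImplicit false

namespace Pool.Agent.Run7.h888.GK

open Polynomial Finset Run7.h400.GK

lemma algebraMap_LS {E : Type} [Field E] (e : E) :
    algebraMap E (LaurentSeries E) e = HahnSeries.single (0 : ℤ) e := by
  rw [HahnSeries.algebraMap_apply']
  simp [HahnSeries.C]

lemma tower_LS {Fq E : Type} [Field Fq] [Field E] [Algebra Fq E] :
    @IsScalarTower Fq E (LaurentSeries E) Algebra.toSMul Algebra.toSMul Algebra.toSMul := by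
  apply IsScalarTower.of_algebraMap_eq
  intro x
  rw [HahnSeries.algebraMap_apply', HahnSeries.algebraMap_apply', PowerSeries.algebraMap_apply,
    PowerSeries.algebraMap_apply]
  rfl

/-- `TT E q` is transcendental over `E` -/
lemma TT_transc {E : Type} [Field E] {q : ℕ} (hq : 2 ≤ q) (p : E[X])
    (hp : aeval (TT E q) p = 0) : p = 0 := by
  ext n
  rw [coeff_zero]
  by_contra hn
  have h1 : (aeval (TT E q) p).coeff ((n : ℤ) * (-((q : ℤ) - 1))) = 0 := by
    rw [hp]
    rfl
  rw [aeval_def, eval₂_eq_sum_range, HahnSeries.coeff_sum] at h1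
  have h2 : ∀ i : ℕ, (algebraMap E (LaurentSeries E) (p.coeff i) *
      (TT E q) ^ i).coeff ((n : ℤ) * (-((q : ℤ) - 1)))
      = if i = n then p.coeff n * (-1) ^ n else 0 := by
    intro i
    rw [algebraMap_LS, TT, HahnSeries.single_pow,
      HahnSeries.single_mul_single, zero_add, nsmul_eq_mul]
    by_cases hi : i = n
    · subst hi
      rw [if_pos rfl, HahnSeries.coeff_single_same]
    · rw [if_neg hi, HahnSeries.coeff_single_of_ne]
      intro h3
      apply hi
      have h4 : (q : ℤ) - 1 ≠ 0 := by omega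
      have h5 := mul_right_cancel₀ (neg_ne_zero.mpr h4) h3
      exact_mod_cast h5.symm
  rw [Finset.sum_congr rfl fun i _ => h2 i, Finset.sum_ite_eq'] at h1
  have h3 : n ∈ range (p.natDegree + 1) := by
    rw [Finset.mem_range]
    have := le_natDegree_of_ne_zero hn
    omega
  rw [if_pos h3] at h1
  rcases mul_eq_zero.mp h1 with h4 | h4
  · exact hn h4
  · exact absurd h4 (pow_ne_zero _ (by norm_num))

theorem t_IN1 (hFRB : S_FRB) (hZJF : S_ZJF) : S_IN1 := by
  intro Fq E _ _ _ _ _ w θ q d k j hD hk0 hk1 hkq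
  classical
  obtain ⟨-, -, -, -, -, hrep⟩ := hFRB Fq E w θ q d hD
  haveI : @IsScalarTower Fq E (LaurentSeries E) Algebra.toSMul Algebra.toSMul Algebra.toSMul :=
    tower_LS
  have hq2 : 2 ≤ q := by
    rw [hD.hq]
    exact Fintype.one_lt_card
  have hqF : (q : Fq) = 0 := by
    rw [hD.hq]
    exact Nat.cast_card_eq_zero Fq
  have hqE : (q : E) = 0 := by
    have := congrArg (algebraMap Fq E) hqF
    rwa [map_natCast, map_zero] at this
  have hqK : ((Fintype.card Fq : ℕ) : LaurentSeries E) = 0 := by
    have := congrArg (algebraMap E (LaurentSeries E)) hqE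
    rw [map_natCast, map_zero] at this
    rw [← hD.hq]
    exact this
  have hT : ∀ p : E[X], aeval (TT E q) p = 0 → p = 0 := fun p hp => TT_transc hq2 p hp
  have hTF : ∀ p : Fq[X], aeval (TT E q) p = 0 → p = 0 := by
    intro p hp
    rw [← aeval_map_algebraMap E] at hp
    have := hT _ hp
    exact (Polynomial.map_eq_zero (algebraMap Fq E)).mp this
  set m := q ^ d - 1 - k with hm
  have hm0 : 0 < m := by omega
  have hmq : (q - 1) ∣ m := by
    have h1 : (q - 1) ∣ q ^ d - 1 := by simpa using Nat.sub_dvd_pow_sub_pow q 1 d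
    exact Nat.dvd_sub h1 hkq
  -- the summand
  set Ψ : Fq[X] → LaurentSeries E := fun c => algebraMap E (LaurentSeries E) (aeval θ c ^ m) *
    (aeval (TT E q) (derivative c) / aeval (TT E q) c) with hΨ
  have hΨ0 : Ψ 0 = 0 := by
    rw [hΨ]
    simp
  have hΨm : ∀ (e : Fq) (c : Fq[X]), e ≠ 0 → Ψ (C e * c) = Ψ c := by
    intro e c he
    have h1 : e ^ m = 1 := by
      obtain ⟨t, ht⟩ := hmq
      have h2 : e ^ (q - 1) = 1 := by
        rw [hD.hq]
        exact FiniteField.pow_card_sub_one_eq_one e he
      rw [ht, pow_mul, h2, one_pow]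
    have h3 : aeval θ (C e * c) ^ m = aeval θ c ^ m := by
      rw [map_mul, aeval_C, mul_pow, ← map_pow, h1, map_one, one_mul]
    have h4 : algebraMap Fq (LaurentSeries E) e ≠ 0 := by
      intro h
      exact he ((map_eq_zero _).mp h)
    simp only [hΨ]
    rw [h3, derivative_C_mul, map_mul (aeval (TT E q)), map_mul (aeval (TT E q)), aeval_C,
      mul_div_mul_left _ _ h4]
  have hsum1 := sum_pv (F := Fq) hqK Ψ hΨ0 hΨm (d + j)
  have hsum2 := sum_div (F := Fq) Ψ hD.monic hD.deg j
  -- the constant
  set B : E[X] := (w.map (algebraMap Fq E)) ^ (q ^ j) * Dm q X j with hB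
  have hBT : aeval (TT E q) B = aeval (TT E q) w ^ (q ^ j) * Dm q (TT E q) j := by
    rw [hB, map_mul, map_pow, aeval_map_algebraMap]
    congr 1
    unfold Dm
    rw [map_prod]
    simp
  set g := gj q w θ j with hg
  set κ := ld (TT E q) B with hκ
  have hinner : ∀ a : Fin d → Fq, ∑ b : Fin j → Fq, Ψ (pv a + w * pv b)
      = algebraMap E (LaurentSeries E) (aeval θ (pv a) ^ m) *
        (κ - nu q d θ (TT E q) g (aeval θ (pv a)) / lam q d g (aeval θ (pv a))) := by
    intro a
    have hval : ∀ b : Fin j → Fq, aeval θ (pv a + w * pv b) = aeval θ (pv a) := by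
      intro b
      rw [map_add, map_mul, hD.root, zero_mul, add_zero]
    by_cases ha : aeval θ (pv a) = 0
    · rw [ha, zero_pow (by omega), map_zero, zero_mul]
      apply Finset.sum_eq_zero
      intro b _
      simp only [hΨ]
      rw [hval, ha, zero_pow (by omega), map_zero, zero_mul]
    · have hne : ∀ b : Fin j → Fq, pv a + w * pv b ≠ 0 := by
        intro b h
        have := hval b
        rw [h, map_zero] at this
        exact ha this.symm
      have hneT : ∀ b : Fin j → Fq, aeval (TT E q) ((pv a + w * pv b).map (algebraMap Fq E)) ≠ 0 := by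
        intro b h
        rw [aeval_map_algebraMap] at h
        exact hne b (hTF _ h)
      set A : E[X] := ∏ b : Fin j → Fq, (pv a + w * pv b).map (algebraMap Fq E) with hA
      have hAT : aeval (TT E q) A ≠ 0 := aeval_prod_ne _ _ fun b _ => hneT b
      have hA0 : A ≠ 0 := by
        intro h
        rw [h, map_zero] at hAT
        exact hAT rfl
      have hz := hZJF Fq E w θ q d j (pv a) hD (degree_pv a)
      have hAz : aeval (TT E q) A = aeval (TT E q) B * ∑ i ∈ range d,
          algebraMap E (LaurentSeries E) (aeval θ (pv a) ^ (q ^ i)) * g i := by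
        rw [hBT]
        have h1 : aeval (TT E q) A = aeval (TT E q) (∏ b : Fin j → Fq,
            (pv a + w * ∑ i : Fin j, C (b i) * X ^ (i : ℕ))) := by
          rw [hA, ← Polynomial.map_prod, aeval_map_algebraMap]
          rfl
        rw [h1, hz]
        rfl
      have h2 := ld_lam hT (q := q) (d := d) (j := j) (by omega) hqE (fun i => θ ^ (q ^ i))
        (fun i => aeval (θ ^ (q ^ i)) (derivative w)) (fun i => aeval θ (pv a) ^ (q ^ i)) g
        (fun i => by
          rw [aeval_Gp]
          rfl) A B hA0 hAz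
      rw [hA, ld_prod _ _ fun b _ => hneT b] at h2
      simp only [hΨ]
      have h3 : ∀ b : Fin j → Fq, algebraMap E (LaurentSeries E) (aeval θ (pv a + w * pv b) ^ m) *
          (aeval (TT E q) (derivative (pv a + w * pv b)) / aeval (TT E q) (pv a + w * pv b))
          = algebraMap E (LaurentSeries E) (aeval θ (pv a) ^ m) *
            ld (TT E q) ((pv a + w * pv b).map (algebraMap Fq E)) := by
        intro b
        rw [hval]
        unfold ld
        rw [derivative_map, aeval_map_algebraMap, aeval_map_algebraMap]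
      rw [Finset.sum_congr rfl fun b _ => h3 b, ← Finset.mul_sum, h2]
      rfl
  -- sum over the residues
  have hbij : Function.Bijective fun a : Fin d → Fq => aeval θ (pv a) := by
    constructor
    · intro a a' haa
      obtain ⟨p, -, hp⟩ := hrep (aeval θ (pv a))
      have h1 := hp (pv a) ⟨degree_pv a, rfl⟩
      have h2 := hp (pv a') ⟨degree_pv a', haa.symm⟩
      exact pv_inj (h1.trans h2.symm)
    · intro x
      obtain ⟨p, ⟨hp1, hp2⟩, -⟩ := hrep x
      refine ⟨fun i => p.coeff i, ?_⟩
      show aeval θ (pv (fun i : Fin d => p.coeff i)) = x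
      rw [pv_coeff p hp1, hp2]
  have hsum3 : ∑ a : Fin d → Fq, ∑ b : Fin j → Fq, Ψ (pv a + w * pv b)
      = ∑ x : E, algebraMap E (LaurentSeries E) (x ^ m) *
        (κ - nu q d θ (TT E q) g x / lam q d g x) := by
    rw [Finset.sum_congr rfl fun a _ => hinner a]
    exact hbij.sum_comp (fun x => algebraMap E (LaurentSeries E) (x ^ m) *
        (κ - nu q d θ (TT E q) g x / lam q d g x))
  have hpow : ∑ x : E, x ^ m = 0 := by
    apply FiniteField.sum_pow_lt_card_sub_one
    rw [hD.hd]
    omega
  have hGam : Gam q d k θ (TT E q) g = ∑ x : E, algebraMap E (LaurentSeries E) (x ^ m) *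
      (nu q d θ (TT E q) g x / lam q d g x) := by
    unfold Gam
    rw [Finset.sum_filter]
    apply Finset.sum_congr rfl
    intro x _
    by_cases hx : x = 0
    · rw [if_neg (not_not.mpr hx), hx, zero_pow (by omega), map_zero, zero_mul]
    · rw [if_pos hx]
      congr 2
      have h1 : x ^ m * x ^ k = 1 := by
        rw [← pow_add]
        have h2 : m + k = Fintype.card E - 1 := by
          rw [hD.hd]
          omega
        rw [h2]
        exact FiniteField.pow_card_sub_one_eq_one x hx
      rw [inv_pow]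
      exact (eq_inv_of_mul_eq_one_left h1).symm
  have hfin : ∑ x : E, algebraMap E (LaurentSeries E) (x ^ m) *
        (κ - nu q d θ (TT E q) g x / lam q d g x) = -Gam q d k θ (TT E q) g := by
    rw [hGam]
    simp only [mul_sub]
    rw [Finset.sum_sub_distrib, ← Finset.sum_mul, ← map_sum, hpow, map_zero, zero_mul, zero_sub]
  rw [hsum3, hfin, hsum1] at hsum2
  exact (neg_inj.mp hsum2).symm

end Pool.Agent.Run7.h888.GK
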