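import Pool.Agent.Run7.h400.GK.StmK

/-! Piece IN1 of project GK (helper400, MP_a90b0f_nt), first part: logarithmic derivatives. -/

set_option autoImplicit false

namespace Pool.Agent.Run7.h888.GK

open Polynomial Finset Run7.h400.GK

section ab

variable {E K : Type} [Field E] [Field K] [Algebra E K]

/-- logarithmic derivative at `T` -/
noncomputable def ld (T : K) (p : E[X]) : K := aeval T (derivative p) / aeval T p

lemma ld_mul {T : K} {p r : E[X]} (hp : aeval T p ≠ 0) (hr : aeval T r ≠ 0) :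
    ld T (p * r) = ld T p + ld T r := by
  unfold ld
  rw [derivative_mul, map_add, map_mul, map_mul, map_mul]
  field_simp

lemma aeval_prod_ne {ι : Type*} {T : K} (s : Finset ι) (f : ι → E[X])
    (h : ∀ i ∈ s, aeval T (f i) ≠ 0) : aeval T (∏ i ∈ s, f i) ≠ 0 := by
  rw [map_prod]
  exact Finset.prod_ne_zero_iff.mpr h

lemma ld_prod {ι : Type*} {T : K} (s : Finset ι) (f : ι → E[X])
    (h : ∀ i ∈ s, aeval T (f i) ≠ 0) : ld T (∏ i ∈ s, f i) = ∑ i ∈ s, ld T (f i) := by
  classical
  induction s using Finset.induction_on with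
  | empty => simp [ld]
  | insert i s hi ih =>
    rw [Finset.prod_insert hi, Finset.sum_insert hi, ld_mul (h i (Finset.mem_insert_self i s))
      (aeval_prod_ne s f fun k hk => h k (Finset.mem_insert_of_mem hk)),
      ih fun k hk => h k (Finset.mem_insert_of_mem hk)]

/-- the polynomial `∏_(l ≤ j) (X^(q^l) - t)` -/
noncomputable def Gp (q j : ℕ) (t : E) : E[X] := ∏ l ∈ range (j + 1), (X ^ (q ^ l) - C t)

lemma aeval_Gp (T : K) (q j : ℕ) (t : E) :
    aeval T (Gp q j t) = ∏ l ∈ range (j + 1), (T ^ (q ^ l) - algebraMap E K t) := by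
  unfold Gp
  rw [map_prod]
  simp

lemma fac_ne {T : K} (hT : ∀ p : E[X], aeval T p = 0 → p = 0) {q : ℕ} (hq : 0 < q) (l : ℕ) (t : E) :
    aeval T (X ^ (q ^ l) - C t) ≠ 0 := by
  intro h
  have h1 := hT _ h
  have h2 := monic_X_pow_sub_C t (show q ^ l ≠ 0 by positivity)
  exact h2.ne_zero h1

lemma Gp_ne {T : K} (hT : ∀ p : E[X], aeval T p = 0 → p = 0) {q : ℕ} (hq : 0 < q) (j : ℕ) (t : E) :
    aeval T (Gp q j t) ≠ 0 :=
  aeval_prod_ne _ _ fun l _ => fac_ne hT hq l t

lemma ld_Gp {T : K} (hT : ∀ p : E[X], aeval T p = 0 → p = 0) {q : ℕ} (hq : 0 < q) (hq0 : (q : E) = 0)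
    (j : ℕ) (t : E) : ld T (Gp q j t) = 1 / (T - algebraMap E K t) := by
  unfold Gp
  rw [ld_prod _ _ fun l _ => fac_ne hT hq l t, Finset.sum_range_succ']
  have h1 : ∑ l ∈ range j, ld T (X ^ (q ^ (l + 1)) - C t) = 0 := by
    apply Finset.sum_eq_zero
    intro l _
    unfold ld
    have h2 : derivative (X ^ (q ^ (l + 1)) - C t : E[X]) = 0 := by
      rw [derivative_sub, derivative_C, sub_zero, derivative_X_pow]
      push_cast
      rw [hq0, zero_pow (by omega), C_0, zero_mul]
    rw [h2, map_zero, zero_div]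
  rw [h1, zero_add]
  unfold ld
  simp

/-- logarithmic derivative of a partial fraction sum -/
lemma ld_lam {T : K} (hT : ∀ p : E[X], aeval T p = 0 → p = 0) {q d j : ℕ} (hq : 0 < q)
    (hq0 : (q : E) = 0) (t δ a : ℕ → E) (g : ℕ → K)
    (hg : ∀ i, g i = (-1) ^ j / (algebraMap E K (δ i) * aeval T (Gp q j (t i)))) (A B : E[X])
    (hA : A ≠ 0)
    (hAB : aeval T A = aeval T B * ∑ i ∈ range d, algebraMap E K (a i) * g i) :
    ld T A = ld T B - (∑ i ∈ range d, algebraMap E K (a i) * g i / (T - algebraMap E K (t i))) /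
      ∑ i ∈ range d, algebraMap E K (a i) * g i := by
  classical
  set L := ∑ i ∈ range d, algebraMap E K (a i) * g i with hL
  set NU := ∑ i ∈ range d, algebraMap E K (a i) * g i / (T - algebraMap E K (t i)) with hNU
  have hAT : aeval T A ≠ 0 := fun h => hA (hT A h)
  have hBT : aeval T B ≠ 0 := by
    intro h
    rw [h, zero_mul] at hAB
    exact hAT hAB
  have hL0 : L ≠ 0 := by
    intro h
    rw [h, mul_zero] at hAB
    exact hAT hAB
  set M : E[X] := ∏ i ∈ range d, Gp q j (t i) with hM
  have hMT : aeval T M ≠ 0 := aeval_prod_ne _ _ fun i _ => Gp_ne hT hq j (t i)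
  set Mi : ℕ → E[X] := fun i => ∏ k ∈ (range d).erase i, Gp q j (t k) with hMi
  have hMiM : ∀ i ∈ range d, Mi i * Gp q j (t i) = M := by
    intro i hi
    exact Finset.prod_erase_mul (range d) _ hi
  have hMi0 : ∀ i, aeval T (Mi i) ≠ 0 := fun i => aeval_prod_ne _ _ fun k _ => Gp_ne hT hq j (t k)
  set N : E[X] := ∑ i ∈ range d, C (a i * (-1) ^ j * (δ i)⁻¹) * Mi i with hN
  have hci : ∀ i ∈ range d, algebraMap E K (a i * (-1) ^ j * (δ i)⁻¹) * aeval T (Mi i)
      = algebraMap E K (a i) * g i * aeval T M := by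
    intro i hi
    have h1 := congrArg (aeval T) (hMiM i hi)
    rw [map_mul] at h1
    have h2 := Gp_ne hT hq j (t i)
    rw [← h1, hg i, map_mul, map_mul, map_pow, map_neg, map_one, map_inv₀]
    by_cases hδ : algebraMap E K (δ i) = 0
    · rw [hδ]
      simp
    · field_simp
  have hNT : aeval T N = aeval T M * L := by
    rw [hN, map_sum, hL, Finset.mul_sum]
    apply Finset.sum_congr rfl
    intro i hi
    rw [map_mul, aeval_C, hci i hi]
    ring
  have hid : A * M = B * N := by
    have h1 : aeval T (A * M - B * N) = 0 := by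
      rw [map_sub, map_mul, map_mul, hNT, hAB]
      ring
    exact sub_eq_zero.mp (hT _ h1)
  have hNT0 : aeval T N ≠ 0 := by
    rw [hNT]
    exact mul_ne_zero hMT hL0
  have h2 : ld T A + ld T M = ld T B + ld T N := by
    rw [← ld_mul hAT hMT, ← ld_mul hBT hNT0, hid]
  have hN' : aeval T (derivative N) = ld T M * aeval T N - aeval T M * NU := by
    rw [hN, derivative_sum, map_sum, map_sum, Finset.mul_sum, hNU, Finset.mul_sum,
      ← Finset.sum_sub_distrib]
    apply Finset.sum_congr rfl
    intro i hi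
    have h3 : ld T (Mi i) = ld T M - 1 / (T - algebraMap E K (t i)) := by
      rw [← ld_Gp hT hq hq0 j (t i), ← hMiM i hi, ld_mul (hMi0 i) (Gp_ne hT hq j (t i))]
      ring
    have h4 : aeval T (derivative (Mi i)) = ld T (Mi i) * aeval T (Mi i) := by
      unfold ld
      have := hMi0 i
      field_simp
    have h5 := hci i hi
    rw [derivative_C_mul, map_mul (aeval T), map_mul (aeval T), aeval_C, h4, h3]
    linear_combination (-(1 / (T - algebraMap E K (t i)))) * h5
  have h6 : ld T N = ld T M - NU / L := by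
    have h7 : ld T N = aeval T (derivative N) / aeval T N := rfl
    rw [h7, hN', hNT]
    field_simp
  rw [h6] at h2
  linear_combination h2

end ab

end Pool.Agent.Run7.h888.GK
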