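import Pool.Agent.Run7.h888.GK.IN1a

/-! Piece IN1 of project GK (helper400, MP_a90b0f_nt), second part: polynomials of small degree. -/

set_option autoImplicit false

namespace Pool.Agent.Run7.h888.GK

open Polynomial Finset Run7.h400.GK

section pv

variable {F : Type} [Field F]

/-- the polynomial with given coefficients -/
noncomputable def pv {n : ℕ} (c : Fin n → F) : F[X] := ∑ i : Fin n, C (c i) * X ^ (i : ℕ)

lemma coeff_pv {n : ℕ} (c : Fin n → F) (i : Fin n) : (pv c).coeff i = c i := by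
  unfold pv
  rw [finset_sum_coeff, Finset.sum_eq_single i]
  · simp
  · intro b _ hb
    rw [coeff_C_mul, coeff_X_pow, if_neg (fun h => hb (Fin.ext h.symm)), mul_zero]
  · simp

lemma degree_pv {n : ℕ} (c : Fin n → F) : (pv c).degree < n := by
  unfold pv
  refine lt_of_le_of_lt (degree_sum_le _ _) ?_
  rw [Finset.sup_lt_iff (by exact WithBot.bot_lt_coe n)]
  intro i _
  refine lt_of_le_of_lt (degree_C_mul_X_pow_le _ _) ?_
  exact_mod_cast i.2

lemma pv_coeff {n : ℕ} (p : F[X]) (hp : p.degree < n) : pv (fun i : Fin n => p.coeff i) = p := by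
  ext m
  by_cases hm : m < n
  · exact coeff_pv (fun i : Fin n => p.coeff i) ⟨m, hm⟩
  · push Not at hm
    have h1 : p.degree < m := lt_of_lt_of_le hp (by exact_mod_cast hm)
    have h2 : (pv (fun i : Fin n => p.coeff i)).degree < m :=
      lt_of_lt_of_le (degree_pv _) (by exact_mod_cast hm)
    rw [coeff_eq_zero_of_degree_lt h1, coeff_eq_zero_of_degree_lt h2]

lemma pv_inj {n : ℕ} {c c' : Fin n → F} (h : pv c = pv c') : c = c' := by
  funext i
  rw [← coeff_pv c i, ← coeff_pv c' i, h]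

lemma pv_snoc {n : ℕ} (c : Fin n → F) (e : F) :
    pv (Fin.snoc (α := fun _ => F) c e) = pv c + C e * X ^ n := by
  unfold pv
  rw [Fin.sum_univ_castSucc]
  simp

lemma C_mul_pv {n : ℕ} (c : Fin n → F) (e : F) : C e * pv c = pv (fun i => e * c i) := by
  unfold pv
  rw [Finset.mul_sum]
  apply Finset.sum_congr rfl
  intro i _
  rw [C_mul, mul_assoc]

lemma mp_eq {n : ℕ} (c : Fin n → F) : mp c = X ^ n + pv c := rfl

/-- sum over all polynomials of degree less than `n` -/
lemma sum_pv [Fintype F] {K : Type} [Field K] (hK : ((Fintype.card F : ℕ) : K) = 0) (Ψ : F[X] → K) (h0 : Ψ 0 = 0)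
    (hΨ : ∀ (e : F) (c : F[X]), e ≠ 0 → Ψ (C e * c) = Ψ c) (n : ℕ) :
    ∑ c : Fin n → F, Ψ (pv c) = -∑ J ∈ range n, ∑ c : Fin J → F, Ψ (mp c) := by
  classical
  induction n with
  | zero =>
    simp [pv, h0]
  | succ n ih =>
    rw [Finset.sum_range_succ, neg_add, ← ih]
    have h1 : ∑ c : Fin (n + 1) → F, Ψ (pv c) = ∑ x : F × (Fin n → F), Ψ (pv (Fin.snoc (α := fun _ => F) x.2 x.1)) :=
      (Equiv.sum_comp (Fin.snocEquiv fun _ : Fin (n + 1) => F) (fun c => Ψ (pv c))).symm
    rw [h1, Fintype.sum_prod_type]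
    have h2 : ∀ e : F, e ≠ 0 → ∑ c : Fin n → F, Ψ (pv (Fin.snoc (α := fun _ => F) c e)) = ∑ c : Fin n → F, Ψ (mp c) := by
      intro e he
      have h3 : ∀ c : Fin n → F, Ψ (pv (Fin.snoc (α := fun _ => F) c e)) = Ψ (mp (fun i => e⁻¹ * c i)) := by
        intro c
        rw [← hΨ e (mp (fun i => e⁻¹ * c i)) he, mp_eq, mul_add, C_mul_pv, pv_snoc]
        congr 1
        rw [add_comm]
        congr 2
        funext i
        rw [mul_inv_cancel_left₀ he]
      rw [Finset.sum_congr rfl fun c _ => h3 c]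
      have he' : e⁻¹ ≠ 0 := inv_ne_zero he
      exact Equiv.sum_comp (Equiv.piCongrRight fun _ : Fin n => Equiv.mulLeft₀ e⁻¹ he') (fun c => Ψ (mp c))
    have h4 : ∑ e : F, ∑ c : Fin n → F, Ψ (pv (Fin.snoc (α := fun _ => F) c e))
        = ∑ c : Fin n → F, Ψ (pv (Fin.snoc (α := fun _ => F) c 0)) + ∑ e ∈ univ.erase (0 : F), ∑ c : Fin n → F, Ψ (mp c) := by
      rw [← Finset.add_sum_erase univ _ (Finset.mem_univ (0 : F))]
      congr 1
      apply Finset.sum_congr rfl
      intro e he
      exact h2 e (Finset.ne_of_mem_erase he)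
    have h5 : ∀ c : Fin n → F, Ψ (pv (Fin.snoc (α := fun _ => F) c 0)) = Ψ (pv c) := by
      intro c
      rw [pv_snoc]
      simp
    rw [h4, Finset.sum_congr rfl fun c _ => h5 c, Finset.sum_const, Finset.card_erase_of_mem (Finset.mem_univ _),
      Finset.card_univ, nsmul_eq_mul, Nat.cast_sub (Fintype.card_pos), hK]
    simp

/-- division with remainder -/
lemma sum_div [Fintype F] {K : Type} [Field K] (Ψ : F[X] → K) {w : F[X]} {d : ℕ} (hw : w.Monic)
    (hd : w.natDegree = d) (j : ℕ) :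
    ∑ c : Fin (d + j) → F, Ψ (pv c) = ∑ a : Fin d → F, ∑ b : Fin j → F, Ψ (pv a + w * pv b) := by
  classical
  have hw0 : w ≠ 0 := hw.ne_zero
  have hdw : w.degree = d := by rw [degree_eq_natDegree hw0, hd]
  have hdeg : ∀ (a : Fin d → F) (b : Fin j → F), (pv a + w * pv b).degree < ((d + j : ℕ) : WithBot ℕ) := by
    intro a b
    refine lt_of_le_of_lt (degree_add_le _ _) (max_lt ?_ ?_)
    · exact lt_of_lt_of_le (degree_pv a) (by exact_mod_cast Nat.le_add_right d j)
    · rw [degree_mul, hdw]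
      have h1 := degree_pv b
      by_cases hb : pv b = 0
      · rw [hb, degree_zero, WithBot.add_bot]
        exact WithBot.bot_lt_coe _
      · rw [degree_eq_natDegree hb] at h1 ⊢
        have h2 : (pv b).natDegree < j := by exact_mod_cast h1
        exact_mod_cast Nat.add_lt_add_left h2 d
  let Φ : (Fin d → F) × (Fin j → F) → (Fin (d + j) → F) :=
    fun x i => (pv x.1 + w * pv x.2).coeff i
  have hΦ : ∀ x, pv (Φ x) = pv x.1 + w * pv x.2 := fun x => pv_coeff _ (hdeg x.1 x.2)
  have hinj : Function.Injective Φ := by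
    intro x y hxy
    have h1 : pv x.1 + w * pv x.2 = pv y.1 + w * pv y.2 := by rw [← hΦ x, ← hΦ y, hxy]
    have h2 : w * (pv x.2 - pv y.2) = pv y.1 - pv x.1 := by linear_combination h1
    have h3 : (pv y.1 - pv x.1).degree < d :=
      lt_of_le_of_lt (degree_sub_le _ _) (max_lt (degree_pv _) (degree_pv _))
    have h4 : pv x.2 - pv y.2 = 0 := by
      by_contra hne
      rw [← h2, degree_mul, hdw, degree_eq_natDegree hne] at h3
      have h5 : d + (pv x.2 - pv y.2).natDegree < d := by exact_mod_cast h3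
      omega
    rw [h4, mul_zero] at h2
    exact Prod.ext (pv_inj (sub_eq_zero.mp h2.symm).symm) (pv_inj (sub_eq_zero.mp h4))
  have hbij : Function.Bijective Φ := by
    rw [Fintype.bijective_iff_injective_and_card]
    refine ⟨hinj, ?_⟩
    simp [pow_add]
  rw [← Fintype.sum_prod_type' (f := fun (a : Fin d → F) (b : Fin j → F) => Ψ (pv a + w * pv b)),
    ← hbij.sum_comp (fun c => Ψ (pv c))]
  apply Finset.sum_congr rfl
  intro x _
  rw [hΦ]

end pv

end Pool.Agent.Run7.h888.GK
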